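import Pool.Agent.Lib.MP_a28c52_lc.Bridge

/-!
Binary codes of numbers, as in the Prelude: conversion from the unary numbers of `HerCo.FP`.
-/

namespace CookLevin

open HerCo Function

/-- A natural number, coded in binary. -/
structure BN where
  /-- the number -/
  n : ℕ

/-- An integer, coded in binary. -/
structure BZ where
  /-- the number -/
  z : ℤ

instance : Enc BN := ⟨fun b => N487b59b3.bitEncode b.n⟩
instance : Enc BZ := ⟨fun b => N487b59b3.bitEncode b.z⟩

/-- add one -/
def inc : List Bool → List Bool
  | [] => [true]
  | false :: l => true :: l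
  | true :: l => false :: inc l

theorem encodePosNum_succ (p : PosNum) :
    Computability.encodePosNum p.succ = inc (Computability.encodePosNum p) := by
  induction p with
  | one => rfl
  | bit1 p ih =>
    show false :: Computability.encodePosNum p.succ = false :: inc (Computability.encodePosNum p)
    rw [ih]
  | bit0 p _ => rfl

theorem encodeNat_succ (n : ℕ) :
    Computability.encodeNat (n + 1) = inc (Computability.encodeNat n) := by
  unfold Computability.encodeNat
  rw [Nat.cast_succ, Num.add_one]
  cases (n : Num) with
  | zero => rfl
  | pos p => exact encodePosNum_succ p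

theorem inc_iter (n : ℕ) : inc^[n] [] = Computability.encodeNat n := by
  induction n with
  | zero => rfl
  | succ n ih => rw [iterate_succ_apply', ih, encodeNat_succ]

theorem length_inc (l : List Bool) : (inc l).length ≤ l.length + 1 := by
  induction l with
  | nil => simp [inc]
  | cons b l ih => cases b <;> simp [inc]; omega

theorem length_inc_iter (n : ℕ) : (inc^[n] []).length ≤ n := by
  induction n with
  | zero => simp
  | succ n ih => rw [iterate_succ_apply']; have := length_inc (inc^[n] []); omega

/-- one step of adding one -/
def incStep (s : Bool × List Bool) (b : Bool) : Bool × List Bool :=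
  if s.1 then (b, (!b) :: s.2) else (false, b :: s.2)

theorem incStep_false (l acc : List Bool) :
    l.foldl incStep (false, acc) = (false, l.reverse ++ acc) := by
  induction l generalizing acc with
  | nil => rfl
  | cons b l ih => simp [incStep, ih]

theorem inc_eq (l : List Bool) : inc l =
    (if (l.foldl incStep (true, [])).1 then true :: (l.foldl incStep (true, [])).2
      else (l.foldl incStep (true, [])).2).reverse := by
  suffices ∀ acc, (if (l.foldl incStep (true, acc)).1 then true :: (l.foldl incStep (true, acc)).2
      else (l.foldl incStep (true, acc)).2).reverse = acc.reverse ++ inc l by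
    rw [this]; rfl
  induction l with
  | nil => intro acc; simp [inc]
  | cons b l ih =>
    intro acc
    cases b with
    | false => simp [incStep, incStep_false, inc]
    | true =>
      rw [List.foldl_cons]
      have : incStep (true, acc) true = (true, false :: acc) := rfl
      rw [this, ih]
      simp [inc]

theorem length_incStep (l : List Bool) (s : Bool × List Bool) :
    (l.foldl incStep s).2.length = l.length + s.2.length := by
  induction l generalizing s with
  | nil => simp
  | cons b l ih =>
    rw [List.foldl_cons, ih]
    unfold incStep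
    split_ifs <;> simp <;> omega

variable {α : Type} [Enc α] {m : Mode}

@[fun_prop]
theorem FP.inc {l : α → List Bool} (hl : FP m l) : FP m (fun a => inc (l a)) := by
  have h1 : FP m (fun a => (l a).foldl incStep (true, [])) := by
    refine FP.foldl (g := fun _ => (true, [])) (h := fun _ s b => incStep s b) hl (by fun_prop)
      ?_ fun hm => ?_
    · unfold incStep
      refine FP.ite (c := fun p : α × (Bool × List Bool) × Bool => p.2.1.1) ?_ ?_ ?_ <;> fun_prop
    · subst hm
      refine ⟨fun a => 3 + sz (l a), (Bd.const 3).add hl.bd, fun a l' hl' => ?_⟩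
      have h2 := length_incStep l' (true, [])
      have h3 := sz_boolList (l'.foldl incStep (true, [])).2
      have h4 : sz l' ≤ sz (l a) := sz_le_of_prefix hl'
      have h5 := sz_boolList l'
      have h6 : ∀ s : Bool × List Bool, sz s = 2 * 1 + 1 + sz s.2 := by
        rintro ⟨a, b⟩; simp
      rw [h6, h3, h2]
      simp only [List.length_nil, Nat.add_zero]
      omega
  have h2 : FP m (fun a => (if ((l a).foldl incStep (true, [])).1 then
      true :: ((l a).foldl incStep (true, [])).2
      else ((l a).foldl incStep (true, [])).2).reverse) := by
    have h3 : FP m (fun a => if ((l a).foldl incStep (true, [])).1 then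
      true :: ((l a).foldl incStep (true, [])).2
      else ((l a).foldl incStep (true, [])).2) :=
      FP.ite h1.fst ((FP.const true).cons h1.snd) h1.snd
    exact h3.reverse
  exact h2.congr fun a => (inc_eq (l a)).symm

@[fun_prop]
theorem FP.encodeNat {n : α → ℕ} (hn : FP m n) :
    FP m (fun a => Computability.encodeNat (n a)) := by
  refine (FP.nat_iterate (init := fun _ => ([] : List Bool)) (h := fun _ s => CookLevin.inc s) (n := n)
    (by fun_prop) (by fun_prop) hn fun hm => ?_).congr fun a => inc_iter (n a)
  subst hm
  refine ⟨fun a => 3 * sz (n a), (Bd.const 3).mul hn.bd, fun a i hi => ?_⟩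
  rw [sz_boolList]
  have h1 := length_inc_iter i
  have h2 : sz (n a) = n a := sz_nat _
  show 3 * ((CookLevin.inc)^[i] []).length ≤ 3 * sz (n a)
  omega

@[fun_prop]
theorem FP.bn {n : α → ℕ} (hn : FP m n) : FP m (fun a => BN.mk (n a)) :=
  ((Cp.reindex Cp.encToRaw (fun a => Computability.encodeNat (n a))).comp
    (FP.encodeNat hn)).of_eq (fun _ => rfl) fun _ => rfl

@[fun_prop]
theorem FP.bz {n : α → ℕ} (hn : FP m n) : FP m (fun a => BZ.mk (n a : ℤ)) := by
  have h : FP m (fun a => (BN.mk (n a), BN.mk 0)) := by fun_prop
  refine Cp.of_eq h (fun _ => rfl) fun a => ?_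
  show dl (Computability.encodeNat (n a)) ++ Computability.encodeNat 0 =
    N487b59b3.delimit (Computability.encodeNat ((n a : ℤ).toNat)) ++
      Computability.encodeNat ((-(n a : ℤ)).toNat)
  rw [delimit_eq]
  have h1 : ((n a : ℤ).toNat) = n a := Int.toNat_natCast _
  have h2 : ((-(n a : ℤ)).toNat) = 0 := by omega
  rw [h1, h2]

/-! ### agreement of the codes -/

variable {A B A' B' : Type} [N487b59b3 A] [N487b59b3 B] [Enc A'] [Enc B']

theorem agree_pair {f : A → A'} {g : B → B'} (hf : ∀ a, enc (f a) = N487b59b3.bitEncode a)
    (hg : ∀ b, enc (g b) = N487b59b3.bitEncode b) (x : A × B) :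
    enc (f x.1, g x.2) = N487b59b3.bitEncode x := by
  show dl (enc (f x.1)) ++ enc (g x.2) =
    N487b59b3.delimit (N487b59b3.bitEncode x.1) ++ N487b59b3.bitEncode x.2
  rw [delimit_eq, hf, hg]

theorem agree_list {f : A → A'} (hf : ∀ a, enc (f a) = N487b59b3.bitEncode a) (l : List A) :
    enc (l.map f) = N487b59b3.bitEncode l := by
  show _ = ((l.map N487b59b3.bitEncode).map N487b59b3.delimit).flatten
  induction l with
  | nil => rfl
  | cons a l ih =>
    rw [List.map_cons, List.map_cons, List.map_cons, List.flatten_cons, ← ih, enc_cons, hf,
      delimit_eq]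

end CookLevin
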