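import Pool.Agent.Lib.CookLevin.Machine

/-!
The formula that describes the accepting runs of a flat stack machine on the inputs
`enc (x, w)`, `|w| ≤ Q`.
-/

namespace CookLevin

open HerCo Function

/-- A formula in conjunctive normal form: a list of clauses; the literal `(v, b)` is true for
the assignment `τ` if `τ v = b`. -/
abbrev Cnf := List (List (ℕ × Bool))

/-- The clause is true. -/
def ClauseSat (τ : ℕ → Bool) (cl : List (ℕ × Bool)) : Prop := ∃ l ∈ cl, τ l.1 = l.2

/-- The formula is satisfiable. -/
def Sat (φ : Cnf) : Prop := ∃ τ : ℕ → Bool, ∀ cl ∈ φ, ClauseSat τ cl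

/-- variable: at time `t` the program counter is `c` -/
def vP (t c : ℕ) : ℕ := Nat.pair 0 (Nat.pair t c)

/-- variable: at time `t` the cell `j` of the register `k` has the value `b` -/
def vC (t k j b : ℕ) : ℕ := Nat.pair 1 (Nat.pair t (Nat.pair k (Nat.pair j b)))

/-- variable: the witness has length `l` -/
def vL (l : ℕ) : ℕ := Nat.pair 2 l

/-- rules for the cells -/
def cellRules (p : List Instr) (κ : ℕ) : List (ℕ × ℕ × ℕ × ℕ × ℕ × ℕ) :=
  (List.range (p.length + 1)).flatMap fun c => (List.range κ).flatMap fun k =>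
    (List.range 4).flatMap fun l => (List.range 4).flatMap fun m => (List.range 4).map fun r =>
      (c, k, l, m, r, nc p[c]? k l m r)

/-- rules for the program counter -/
def pcRules (p : List Instr) : List (ℕ × ℕ × ℕ × ℕ) :=
  (List.range p.length).flatMap fun c => (List.range 4).map fun b =>
    (c, (p.getD c (0, 0, 0, 0, 0)).2.1, b + 1, np (p.getD c (0, 0, 0, 0, 0)) (b + 1))

theorem mem_cellRules {p : List Instr} {κ c k l m r o : ℕ} :
    (c, k, l, m, r, o) ∈ cellRules p κ ↔ c ≤ p.length ∧ k < κ ∧ l < 4 ∧ m < 4 ∧ r < 4 ∧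
      o = nc p[c]? k l m r := by
  simp only [cellRules, List.mem_flatMap, List.mem_map, List.mem_range, Prod.mk.injEq]
  constructor
  · rintro ⟨c', h1, k', h2, l', h3, m', h4, r', h5, rfl, rfl, rfl, rfl, rfl, rfl⟩
    exact ⟨by omega, h2, h3, h4, h5, rfl⟩
  · rintro ⟨h1, h2, h3, h4, h5, rfl⟩
    exact ⟨c, by omega, k, h2, l, h3, m, h4, r, h5, rfl, rfl, rfl, rfl, rfl, rfl⟩

theorem mem_pcRules {p : List Instr} {c k b c' : ℕ} :
    (c, k, b, c') ∈ pcRules p ↔ ∃ i, p[c]? = some i ∧ k = i.2.1 ∧ 0 < b ∧ b < 5 ∧
      c' = np i b := by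
  simp only [pcRules, List.mem_flatMap, List.mem_map, List.mem_range, Prod.mk.injEq]
  constructor
  · rintro ⟨c'', h1, b', h2, rfl, rfl, rfl, rfl⟩
    exact ⟨p.getD c'' (0, 0, 0, 0, 0), by rw [List.getD_eq_getElem _ _ h1]; simp [h1], rfl,
      by omega, by omega, rfl⟩
  · rintro ⟨i, h1, rfl, h2, h3, rfl⟩
    have hc : c < p.length := by
      by_contra h
      rw [List.getElem?_eq_none (by omega)] at h1
      simp at h1
    have h4 : p.getD c (0, 0, 0, 0, 0) = i := by
      rw [List.getD_eq_getElem _ _ hc]
      rw [List.getElem?_eq_getElem hc] at h1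
      exact Option.some.inj h1
    refine ⟨c, hc, b - 1, by omega, rfl, by rw [h4], by omega, ?_⟩
    rw [h4]
    congr 1
    omega

/-- the clauses that describe the steps -/
def stepClauses (p : List Instr) (κ T J : ℕ) : Cnf :=
  ((List.range (T + 1)).flatMap fun t => (List.range κ).map fun k => [(vC t k 0 3, true)]) ++
  ((List.range T).flatMap fun t => (List.range (J - t - 1)).flatMap fun j =>
    (cellRules p κ).map fun ρ => [(vP t ρ.1, false), (vC t ρ.2.1 j ρ.2.2.1, false),
      (vC t ρ.2.1 (j + 1) ρ.2.2.2.1, false), (vC t ρ.2.1 (j + 2) ρ.2.2.2.2.1, false),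
      (vC (t + 1) ρ.2.1 (j + 1) ρ.2.2.2.2.2, true)]) ++
  ((List.range T).flatMap fun t => (List.range (J - t)).flatMap fun j =>
    (pcRules p).map fun ρ => [(vP t ρ.1, false), (vC t ρ.2.1 j ρ.2.2.1, false),
      (vC t ρ.2.1 (j + 1) 0, false), (vP (t + 1) ρ.2.2.2, true)]) ++
  ((List.range T).map fun t => [(vP t p.length, false), (vP (t + 1) p.length, true)])

/-- the clauses that describe the input -/
def initClauses (κ J Q : ℕ) (X : List Bool) : Cnf :=
  [[(vP 0 0, true)]] ++
  ((List.range (κ - 1)).flatMap fun k => (List.range J).map fun j =>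
    [(vC 0 (k + 1) (j + 1) 0, true)]) ++
  [(List.range (Q + 1)).map fun l => (vL l, true)] ++
  ((List.range (Q + 1)).flatMap fun l => (List.range l).flatMap fun i =>
    [[(vL l, false), (vC 0 0 (3 * i + 1) 1, true)],
     [(vL l, false), (vC 0 0 (3 * i + 2) 1, true), (vC 0 0 (3 * i + 2) 2, true)],
     [(vL l, false), (vC 0 0 (3 * i + 3) 2, true)]]) ++
  ((List.range (Q + 1)).flatMap fun l => (List.range J).map fun j =>
    [(vL l, false), (vC 0 0 (3 * l + j + 1) (bc X.reverse[j]?), true)])

/-- the formula -/
def formula (p : List Instr) (κ T J Q : ℕ) (X : List Bool) : Cnf :=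
  stepClauses p κ T J ++ initClauses κ J Q X ++ [[(vC T 0 1 1, false)]]

theorem formula_ne (p : List Instr) (κ T J Q : ℕ) (X : List Bool) :
    ∀ cl ∈ formula p κ T J Q X, cl ≠ [] := by
  intro cl h
  simp only [formula, stepClauses, initClauses, List.mem_append, List.mem_flatMap, List.mem_map,
    List.mem_range, List.mem_cons, List.not_mem_nil, or_false] at h
  rintro rfl
  simp at h

theorem formula_ne_nil (p : List Instr) (κ T J Q : ℕ) (X : List Bool) :
    formula p κ T J Q X ≠ [] := by
  intro h
  have : [(vC T 0 1 1, false)] ∈ formula p κ T J Q X := by simp [formula]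
  rw [h] at this
  simp at this

/-- the register contents in terms of the encoded witness -/
theorem enc_bools (w : List Bool) : (enc w : List Bool) = w.flatMap fun b => [true, b, false] := by
  induction w with
  | nil => rfl
  | cons b w ih =>
    show dl [b] ++ enc w = _
    rw [ih]
    rfl

theorem enc_reverse (w : List Bool) :
    (enc w : List Bool).reverse = w.reverse.flatMap fun b => [false, b, true] := by
  rw [enc_bools]
  induction w with
  | nil => rfl
  | cons b w ih =>
    have h : (b :: w).reverse = w.reverse ++ [b] := List.reverse_cons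
    rw [h, List.flatMap_append, List.flatMap_cons, List.reverse_append, ih]
    rfl

theorem flatMap3 (w : List Bool) : ∀ i < w.length, ∀ b, w[i]? = some b →
    (w.flatMap fun b => [false, b, true])[3 * i]? = some false ∧
    (w.flatMap fun b => [false, b, true])[3 * i + 1]? = some b ∧
    (w.flatMap fun b => [false, b, true])[3 * i + 2]? = some true := by
  induction w with
  | nil => intro i hi; simp at hi
  | cons a w ih =>
    intro i hi b hb
    cases i with
    | zero => simp at hb; subst hb; simp
    | succ i =>
      have h1 := ih i (by simpa using hi) b (by simpa using hb)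
      have e1 : 3 * (i + 1) = 3 * i + 3 := by ring
      rw [e1]
      simp only [List.flatMap_cons, List.cons_append, List.nil_append]
      exact h1

theorem length_flatMap3 (w : List Bool) :
    (w.flatMap fun b => [false, b, true]).length = 3 * w.length := by
  induction w with
  | nil => rfl
  | cons a w ih => simp [ih]; ring

end CookLevin
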