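import Pool.Agent.Lib.CookLevin.Cnf

/-!
The formula is satisfiable if and only if some witness is accepted.
-/

namespace CookLevin

open HerCo Function

section init

variable (X w : List Bool)

theorem ini_zero_reverse : (ini (X ++ enc w) 0).reverse =
    (w.reverse.flatMap fun b => [false, b, true]) ++ X.reverse := by
  have : ini (X ++ enc w) 0 = X ++ enc w := by simp [ini]
  rw [this, List.reverse_append, enc_reverse]

theorem init_low {i : ℕ} (hi : i < w.length) :
    cv (ini (X ++ enc w)) 0 (3 * i + 1) = 1 ∧
    cv (ini (X ++ enc w)) 0 (3 * i + 2) = bc w.reverse[i]? ∧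
    cv (ini (X ++ enc w)) 0 (3 * i + 3) = 2 := by
  have hi' : i < w.reverse.length := by simpa using hi
  obtain ⟨h1, h2, h3⟩ := flatMap3 w.reverse i hi' _ (List.getElem?_eq_getElem hi')
  have hl := length_flatMap3 w.reverse
  rw [List.length_reverse] at hl
  simp only [cv, ini_zero_reverse]
  refine ⟨?_, ?_, ?_⟩
  · rw [List.getElem?_append_left (by omega), h1]; rfl
  · rw [List.getElem?_append_left (by omega), h2, List.getElem?_eq_getElem hi']
  · rw [List.getElem?_append_left (by omega), h3]; rfl

theorem init_high (j : ℕ) :
    cv (ini (X ++ enc w)) 0 (3 * w.length + j + 1) = bc X.reverse[j]? := by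
  have hl := length_flatMap3 w.reverse
  rw [List.length_reverse] at hl
  simp only [cv, ini_zero_reverse]
  rw [List.getElem?_append_right (by omega)]
  congr 2
  omega

theorem init_other {k : ℕ} (hk : k ≠ 0) (j : ℕ) : cv (ini (X ++ enc w)) k (j + 1) = 0 := by
  simp [cv, ini, update_of_ne hk, bc]

theorem length_ini_le {Q : ℕ} (hw : w.length ≤ Q) (k : ℕ) :
    (ini (X ++ enc w) k).length ≤ X.length + 3 * Q := by
  unfold ini
  by_cases hk : k = 0
  · subst hk
    have : (enc w : List Bool).length = 3 * w.length := by
      rw [enc_bools]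
      induction w with
      | nil => rfl
      | cons b w ih =>
        have := ih (by simp at hw; omega)
        simp only [List.flatMap_cons, List.length_append, List.length_cons, List.length_nil,
          this]
        ring
    simp only [update_self, List.length_append, this]
    omega
  · simp [update_of_ne hk]

end init

variable {p : List Instr} {κ T J Q : ℕ} {X : List Bool}

theorem clause_imp {τ : ℕ → Bool} {l : List ℕ} {v : ℕ}
    (h : ClauseSat τ (l.map (fun u => (u, false)) ++ [(v, true)])) (hl : ∀ u ∈ l, τ u = true) :
    τ v = true := by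
  obtain ⟨y, hy, he⟩ := h
  rcases List.mem_append.1 hy with h1 | h1
  · obtain ⟨u, hu, rfl⟩ := List.mem_map.1 h1
    rw [hl u hu] at he
    simp at he
  · simp only [List.mem_singleton] at h1
    subst h1
    exact he

/-- the facts of the run hold for a satisfying assignment -/
theorem facts_of_sat (hp : WF p κ) {τ : ℕ → Bool}
    (hτ : ∀ cl ∈ stepClauses p κ T J, ClauseSat τ cl) {s : Store} {L : ℕ}
    (hL : ∀ k, (s k).length ≤ L) (hJ : L + 2 * T + 1 ≤ J) (h0 : τ (vP 0 0) = true)
    (h1 : ∀ k < κ, ∀ j < J, τ (vC 0 k (j + 1) (cv s k (j + 1))) = true) :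
    ∀ t ≤ T, τ (vP t ((stepM p)^[t] (0, s)).1) = true ∧
      ∀ k < κ, ∀ j, j + t ≤ J → τ (vC t k j (cv ((stepM p)^[t] (0, s)).2 k j)) = true := by
  have hfloor : ∀ t ≤ T, ∀ k < κ, τ (vC t k 0 3) = true := by
    intro t ht k hk
    have := hτ [(vC t k 0 3, true)] (by
      simp only [stepClauses, List.mem_append, List.mem_flatMap, List.mem_map, List.mem_range]
      exact Or.inl (Or.inl (Or.inl ⟨t, by omega, k, hk, rfl⟩)))
    exact clause_imp (l := []) this (by simp)
  intro t
  induction t with
  | zero =>
    intro _
    refine ⟨h0, fun k hk j hj => ?_⟩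
    cases j with
    | zero => exact hfloor 0 (Nat.zero_le _) k hk
    | succ j => exact h1 k hk j (by omega)
  | succ t ih =>
    intro ht
    obtain ⟨h2, h3⟩ := ih (by omega)
    rw [iterate_succ_apply']
    have hpc := iter_pc_le hp s t
    have hlen := fun k => (iter_len p (0, s) k t).trans (Nat.add_le_add_right (hL k) t)
    generalize hc : (stepM p)^[t] (0, s) = c at *
    constructor
    · by_cases hh : c.1 = p.length
      · have := hτ [(vP t p.length, false), (vP (t + 1) p.length, true)] (by
          simp only [stepClauses, List.mem_append, List.mem_flatMap, List.mem_map, List.mem_range]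
          exact Or.inr ⟨t, by omega, rfl⟩)
        have h4 := clause_imp (l := [vP t p.length]) this (by
          intro u hu
          simp only [List.mem_singleton] at hu
          rw [hu, ← hh]
          exact h2)
        have h5 : (stepM p c).1 = p.length := by
          have : c = (p.length, c.2) := by rw [← hh]
          rw [this, stepM_halt]
        rw [h5]
        exact h4
      · have hlt : c.1 < p.length := by omega
        obtain ⟨i, hi⟩ : ∃ i, p[c.1]? = some i := ⟨_, List.getElem?_eq_getElem hlt⟩
        have hik : i.2.1 < κ := (hp i (List.mem_of_getElem? hi)).2.1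
        have h4 := top_cell_ne c.2 i.2.1
        have h5 := above_top c.2 i.2.1
        have h6 := cv_lt c.2 i.2.1 (c.2 i.2.1).length
        have h7 := hlen i.2.1
        have h8 := pc_step hp c hi h4 h5
        have := hτ [(vP t c.1, false), (vC t i.2.1 (c.2 i.2.1).length
            (cv c.2 i.2.1 (c.2 i.2.1).length), false),
            (vC t i.2.1 ((c.2 i.2.1).length + 1) 0, false), (vP (t + 1) (stepM p c).1, true)] (by
          simp only [stepClauses, List.mem_append, List.mem_flatMap, List.mem_map, List.mem_range]
          refine Or.inl (Or.inr ⟨t, by omega, (c.2 i.2.1).length, by omega,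
            (c.1, i.2.1, cv c.2 i.2.1 (c.2 i.2.1).length, (stepM p c).1), ?_, rfl⟩)
          exact mem_pcRules.2 ⟨i, hi, rfl, by omega, by omega, h8⟩)
        refine clause_imp (l := [vP t c.1, vC t i.2.1 (c.2 i.2.1).length
            (cv c.2 i.2.1 (c.2 i.2.1).length), vC t i.2.1 ((c.2 i.2.1).length + 1) 0]) this ?_
        intro u hu
        simp only [List.mem_cons, List.not_mem_nil, or_false] at hu
        rcases hu with rfl | rfl | rfl
        · exact h2
        · exact h3 _ hik _ (by omega)
        · have := h3 _ hik ((c.2 i.2.1).length + 1) (by omega)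
          rw [h5] at this
          exact this
    · intro k hk j hj
      cases j with
      | zero => exact hfloor (t + 1) ht k hk
      | succ j =>
        have := hτ [(vP t c.1, false), (vC t k j (cv c.2 k j), false),
            (vC t k (j + 1) (cv c.2 k (j + 1)), false), (vC t k (j + 2) (cv c.2 k (j + 2)), false),
            (vC (t + 1) k (j + 1) (cv (stepM p c).2 k (j + 1)), true)] (by
          simp only [stepClauses, List.mem_append, List.mem_flatMap, List.mem_map, List.mem_range]
          refine Or.inl (Or.inl (Or.inr ⟨t, by omega, j, by omega,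
            (c.1, k, cv c.2 k j, cv c.2 k (j + 1), cv c.2 k (j + 2),
              cv (stepM p c).2 k (j + 1)), ?_, rfl⟩))
          exact mem_cellRules.2 ⟨hpc, hk, cv_lt _ _ _, cv_lt _ _ _, cv_lt _ _ _,
            cell_step p c k j⟩)
        refine clause_imp (l := [vP t c.1, vC t k j (cv c.2 k j),
            vC t k (j + 1) (cv c.2 k (j + 1)), vC t k (j + 2) (cv c.2 k (j + 2))]) this ?_
        intro u hu
        simp only [List.mem_cons, List.not_mem_nil, or_false] at hu
        rcases hu with rfl | rfl | rfl | rfl
        · exact h2
        · exact h3 _ hk _ (by omega)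
        · exact h3 _ hk _ (by omega)
        · exact h3 _ hk _ (by omega)

/-- the assignment given by a run -/
def asg (p : List Instr) (s : Store) (n : ℕ) (v : ℕ) : Bool :=
  if v.unpair.1 = 0 then
    decide (((stepM p)^[v.unpair.2.unpair.1] (0, s)).1 = v.unpair.2.unpair.2)
  else if v.unpair.1 = 1 then
    decide (cv ((stepM p)^[v.unpair.2.unpair.1] (0, s)).2 v.unpair.2.unpair.2.unpair.1
      v.unpair.2.unpair.2.unpair.2.unpair.1 = v.unpair.2.unpair.2.unpair.2.unpair.2)
  else decide (v.unpair.2 = n)

theorem asg_vP (p : List Instr) (s : Store) (n t c : ℕ) :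
    asg p s n (vP t c) = decide (((stepM p)^[t] (0, s)).1 = c) := by
  simp [asg, vP]

theorem asg_vC (p : List Instr) (s : Store) (n t k j b : ℕ) :
    asg p s n (vC t k j b) = decide (cv ((stepM p)^[t] (0, s)).2 k j = b) := by
  simp [asg, vC]

theorem asg_vL (p : List Instr) (s : Store) (n l : ℕ) :
    asg p s n (vL l) = decide (l = n) := by
  simp [asg, vL]

theorem imp_clause {τ : ℕ → Bool} {l : List ℕ} {v : ℕ} (h : (∀ u ∈ l, τ u = true) → τ v = true) :
    ClauseSat τ (l.map (fun u => (u, false)) ++ [(v, true)]) := by
  by_cases hl : ∀ u ∈ l, τ u = true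
  · exact ⟨(v, true), by simp, h hl⟩
  · push Not at hl
    obtain ⟨u, hu, hn⟩ := hl
    exact ⟨(u, false), List.mem_append_left _ (List.mem_map.2 ⟨u, hu, rfl⟩), by simpa using hn⟩

theorem steps_of_run (hp : WF p κ) (s : Store) (n : ℕ) :
    ∀ cl ∈ stepClauses p κ T J, ClauseSat (asg p s n) cl := by
  intro cl hcl
  simp only [stepClauses, List.mem_append, List.mem_flatMap, List.mem_map, List.mem_range] at hcl
  rcases hcl with ((⟨t, _, k, _, rfl⟩ | ⟨t, _, j, _, ρ, hρ, rfl⟩) | ⟨t, _, j, _, ρ, hρ, rfl⟩) |
    ⟨t, _, rfl⟩
  · refine imp_clause (l := []) fun _ => ?_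
    rw [asg_vC]
    simp [cv]
  · obtain ⟨c, k, l, m, r, o⟩ := ρ
    obtain ⟨h1, h2, h3, h4, h5, rfl⟩ := mem_cellRules.1 hρ
    refine imp_clause (l := [vP t c, vC t k j l, vC t k (j + 1) m, vC t k (j + 2) r]) fun h => ?_
    simp only [List.mem_cons, List.not_mem_nil, or_false, forall_eq_or_imp, forall_eq, asg_vP,
      asg_vC, decide_eq_true_eq] at h ⊢
    obtain ⟨rfl, rfl, rfl, rfl⟩ := h
    rw [iterate_succ_apply', cell_step]
  · obtain ⟨c, k, b, c'⟩ := ρ
    obtain ⟨i, hi, rfl, hb, _, rfl⟩ := mem_pcRules.1 hρ
    refine imp_clause (l := [vP t c, vC t i.2.1 j b, vC t i.2.1 (j + 1) 0]) fun h => ?_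
    simp only [List.mem_cons, List.not_mem_nil, or_false, forall_eq_or_imp, forall_eq, asg_vP,
      asg_vC, decide_eq_true_eq] at h ⊢
    obtain ⟨rfl, rfl, h3⟩ := h
    rw [iterate_succ_apply', pc_step hp _ hi (by omega) h3]
  · refine imp_clause (l := [vP t p.length]) fun h => ?_
    simp only [List.mem_cons, List.not_mem_nil, or_false, forall_eq, asg_vP,
      decide_eq_true_eq] at h ⊢
    rw [iterate_succ_apply']
    have : (stepM p)^[t] (0, s) = (p.length, ((stepM p)^[t] (0, s)).2) := by rw [← h]
    rw [this, stepM_halt]

/-- the formula is satisfiable if and only if some witness is accepted -/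
theorem formula_sat (hκ : 0 < κ) (hp : WF p κ) (out : List Bool → Bool)
    (hrun : ∀ w : List Bool, w.length ≤ Q →
      (stepM p)^[T] (0, ini (X ++ enc w)) = (p.length, ini [out w]))
    (hJ : X.length + 3 * Q + 2 * T + 1 ≤ J) :
    Sat (formula p κ T J Q X) ↔ ∃ w : List Bool, w.length ≤ Q ∧ out w = true := by
  constructor
  · rintro ⟨τ, hτ⟩
    have hstep : ∀ cl ∈ stepClauses p κ T J, ClauseSat τ cl := fun cl h => hτ cl (by
      simp only [formula, List.mem_append]; exact Or.inl (Or.inl h))
    have hinit : ∀ cl ∈ initClauses κ J Q X, ClauseSat τ cl := fun cl h => hτ cl (by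
      simp only [formula, List.mem_append]; exact Or.inl (Or.inr h))
    have hfin := hτ [(vC T 0 1 1, false)] (by simp [formula])
    -- the length of the witness
    obtain ⟨y, hy, hyt⟩ := hinit ((List.range (Q + 1)).map fun l => (vL l, true)) (by
      simp [initClauses])
    obtain ⟨l, hl, rfl⟩ := List.mem_map.1 hy
    rw [List.mem_range] at hl
    simp only at hyt
    -- the witness
    let w : List Bool := ((List.range l).map fun i => τ (vC 0 0 (3 * i + 2) 2)).reverse
    have hwl : w.length = l := by simp [w]
    have hwr : ∀ i < l, w.reverse[i]? = some (τ (vC 0 0 (3 * i + 2) 2)) := by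
      intro i hi
      simp [w, hi]
    have hcell : ∀ k < κ, ∀ j < J, τ (vC 0 k (j + 1) (cv (ini (X ++ enc w)) k (j + 1))) = true := by
      intro k hk j hj
      by_cases hk0 : k = 0
      · subst hk0
        by_cases hjl : j < 3 * l
        · obtain ⟨i, r, hr, rfl⟩ : ∃ i r, r < 3 ∧ j = 3 * i + r :=
            ⟨j / 3, j % 3, Nat.mod_lt _ (by norm_num), by omega⟩
          have hi : i < l := by omega
          obtain ⟨e1, e2, e3⟩ := init_low X w (i := i) (by omega)
          have hmem : ∀ cl ∈ [[(vL l, false), (vC 0 0 (3 * i + 1) 1, true)],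
              [(vL l, false), (vC 0 0 (3 * i + 2) 1, true), (vC 0 0 (3 * i + 2) 2, true)],
              [(vL l, false), (vC 0 0 (3 * i + 3) 2, true)]], ClauseSat τ cl := by
            intro cl hcl
            refine hinit cl ?_
            simp only [initClauses, List.mem_append, List.mem_flatMap, List.mem_range]
            exact Or.inl (Or.inr ⟨l, hl, i, hi, hcl⟩)
          obtain rfl | rfl | rfl : r = 0 ∨ r = 1 ∨ r = 2 := by omega
          · rw [Nat.add_zero, e1]
            exact clause_imp (l := [vL l]) (hmem _ (by simp)) (by simpa using hyt)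
          · show τ (vC 0 0 (3 * i + 2) (cv (ini (X ++ enc w)) 0 (3 * i + 2))) = true
            rw [e2, hwr i hi]
            cases hb : τ (vC 0 0 (3 * i + 2) 2) with
            | true => exact hb
            | false =>
              obtain ⟨y, hy, hye⟩ := hmem [(vL l, false), (vC 0 0 (3 * i + 2) 1, true),
                (vC 0 0 (3 * i + 2) 2, true)] (by simp)
              simp only [List.mem_cons, List.not_mem_nil, or_false] at hy
              rcases hy with rfl | rfl | rfl
              · rw [hyt] at hye; simp at hye
              · exact hye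
              · rw [hb] at hye; simp at hye
          · show τ (vC 0 0 (3 * i + 3) (cv (ini (X ++ enc w)) 0 (3 * i + 3))) = true
            rw [e3]
            exact clause_imp (l := [vL l]) (hmem _ (by simp)) (by simpa using hyt)
        · obtain ⟨i, rfl⟩ := Nat.exists_eq_add_of_le (not_lt.1 hjl)
          have e := init_high X w i
          rw [hwl] at e
          rw [e]
          refine clause_imp (l := [vL l]) (hinit _ ?_) (by simpa using hyt)
          simp only [initClauses, List.mem_append, List.mem_flatMap, List.mem_map, List.mem_range]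
          exact Or.inr ⟨l, hl, i, by omega, rfl⟩
      · rw [init_other X w hk0]
        refine clause_imp (l := []) (hinit _ ?_) (by simp)
        simp only [initClauses, List.mem_append, List.mem_flatMap, List.mem_map, List.mem_range]
        refine Or.inl (Or.inl (Or.inl (Or.inr ⟨k - 1, by omega, j, hj, ?_⟩)))
        have : k - 1 + 1 = k := by omega
        rw [this]
        rfl
    have h00 : τ (vP 0 0) = true :=
      clause_imp (l := []) (hinit [(vP 0 0, true)] (by simp [initClauses])) (by simp)
    have hfacts := facts_of_sat hp hstep (s := ini (X ++ enc w)) (L := X.length + 3 * Q)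
      (length_ini_le X w (by omega)) hJ h00 hcell T le_rfl
    rw [hrun w (by omega)] at hfacts
    refine ⟨w, by omega, ?_⟩
    by_contra hne
    rw [Bool.not_eq_true] at hne
    have h1 := hfacts.2 0 hκ 1 (by omega)
    rw [hne] at h1
    have h2 : cv (ini [false]) 0 1 = 1 := rfl
    simp only [h2] at h1
    obtain ⟨y, hy, hye⟩ := hfin
    simp only [List.mem_singleton] at hy
    subst hy
    rw [h1] at hye
    simp at hye
  · rintro ⟨w, hw, hout⟩
    refine ⟨asg p (ini (X ++ enc w)) w.length, fun cl hcl => ?_⟩
    simp only [formula, List.mem_append, List.mem_singleton] at hcl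
    rcases hcl with (hcl | hcl) | rfl
    · exact steps_of_run hp _ _ cl hcl
    · simp only [initClauses, List.mem_append, List.mem_flatMap, List.mem_map, List.mem_range,
        List.mem_singleton] at hcl
      rcases hcl with (((rfl | ⟨k, _, j, _, rfl⟩) | rfl) | ⟨l, _, i, hi, hcl⟩) | ⟨l, _, j, _, rfl⟩
      · refine imp_clause (l := []) fun _ => ?_
        rw [asg_vP]; simp
      · refine imp_clause (l := []) fun _ => ?_
        rw [asg_vC]
        simp only [iterate_zero, id_eq, init_other X w (Nat.succ_ne_zero k), decide_true]
      · exact ⟨(vL w.length, true), List.mem_map.2 ⟨w.length, List.mem_range.2 (by omega), rfl⟩, by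
          simp [asg_vL]⟩
      · by_cases hl : l = w.length
        · subst hl
          obtain ⟨e1, e2, e3⟩ := init_low X w hi
          simp only [List.mem_cons, List.not_mem_nil, or_false] at hcl
          rcases hcl with rfl | rfl | rfl
          · refine imp_clause (l := [vL w.length]) fun _ => ?_
            rw [asg_vC]
            simp only [iterate_zero, id_eq, e1, decide_true]
          · have hi' : i < w.reverse.length := by simpa using hi
            rw [List.getElem?_eq_getElem hi'] at e2
            cases hb : w.reverse[i] with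
            | false =>
              rw [hb] at e2
              refine ⟨(vC 0 0 (3 * i + 2) 1, true), by simp, ?_⟩
              rw [asg_vC]
              simp only [iterate_zero, id_eq, e2]
              rfl
            | true =>
              rw [hb] at e2
              refine ⟨(vC 0 0 (3 * i + 2) 2, true), by simp, ?_⟩
              rw [asg_vC]
              simp only [iterate_zero, id_eq, e2]
              rfl
          · refine imp_clause (l := [vL w.length]) fun _ => ?_
            rw [asg_vC]
            simp only [iterate_zero, id_eq, e3, decide_true]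
        · refine ⟨(vL l, false), ?_, by simp [asg_vL, hl]⟩
          simp only [List.mem_cons, List.not_mem_nil, or_false] at hcl
          rcases hcl with rfl | rfl | rfl <;> simp
      · by_cases hl : l = w.length
        · subst hl
          refine imp_clause (l := [vL w.length]) fun _ => ?_
          rw [asg_vC]
          simp only [iterate_zero, id_eq, init_high X w j, decide_true]
        · exact ⟨(vL l, false), by simp, by simp [asg_vL, hl]⟩
    · refine ⟨(vC T 0 1 1, false), by simp, ?_⟩
      rw [asg_vC, hrun w hw, hout]
      rfl

end CookLevin
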