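import Pool.Agent.Lib.MP_a28c52_lc.Bridge

/-!
Local rules for the steps of a flat stack machine (`HerCo.stepM`): a configuration is described
by the program counter and, for every register `k`, by cells `0, 1, 2, …`: cell `0` holds the
value `3` (the floor), cell `j + 1` holds `1`/`2` if the `j`-th bit from the bottom of the stack
is `false`/`true`, and `0` above the stack.
-/

namespace CookLevin

open HerCo Function

/-- value of a cell -/
def bc : Option Bool → ℕ
  | none => 0
  | some false => 1
  | some true => 2

/-- the cells of the registers -/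
def cv (s : Store) (k : ℕ) : ℕ → ℕ
  | 0 => 3
  | j + 1 => bc ((s k).reverse[j]?)

theorem bc_lt (o : Option Bool) : bc o < 3 := by
  rcases o with _ | _ | _ <;> decide

theorem cv_lt (s : Store) (k j : ℕ) : cv s k j < 4 := by
  cases j with
  | zero => simp [cv]
  | succ j => have := bc_lt ((s k).reverse[j]?); simp only [cv]; omega

theorem bc_eq_zero {o : Option Bool} : bc o = 0 ↔ o = none := by
  rcases o with _ | _ | _ <;> simp [bc]

theorem cv_eq_zero {s : Store} {k j : ℕ} : cv s k j = 0 ↔ (s k).length < j := by
  cases j with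
  | zero => simp [cv]
  | succ j =>
    simp only [cv, bc_eq_zero, List.getElem?_eq_none_iff, List.length_reverse]
    omega

/-- new value of a cell -/
def nc (i : Option Instr) (k l m r : ℕ) : ℕ :=
  match i with
  | none => m
  | some i =>
    if i.1 = 0 then (if i.2.1 = k ∧ m = 0 ∧ l ≠ 0 then 1 else m)
    else if i.1 = 1 then (if i.2.1 = k ∧ m = 0 ∧ l ≠ 0 then 2 else m)
    else if i.1 = 2 then (if i.2.1 = k ∧ m ≠ 0 ∧ r = 0 then 0 else m)
    else m

/-- new program counter, for the top cell `b` of the tested register -/
def np (i : Instr) (b : ℕ) : ℕ :=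
  if i.1 = 3 then (if b = 3 then i.2.2.1 else if b = 1 then i.2.2.2.1 else i.2.2.2.2)
  else i.2.2.1

theorem cv_push (s : Store) (k : ℕ) (b : Bool) (j : ℕ) :
    cv (update s k (b :: s k)) k (j + 1) =
      if cv s k (j + 1) = 0 ∧ cv s k j ≠ 0 then bc (some b) else cv s k (j + 1) := by
  have h1 : cv (update s k (b :: s k)) k (j + 1) = bc (((s k).reverse ++ [b])[j]?) := by
    simp [cv]
  rw [h1]
  simp only [ne_eq, cv_eq_zero]
  rw [List.getElem?_append]
  simp only [List.length_reverse]
  split_ifs with h2 h3 h4
  · omega
  · rfl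
  · have : j - (s k).length = 0 := by omega
    rw [this]; rfl
  · have : 0 < j - (s k).length := by omega
    rw [List.getElem?_eq_none (by simp; omega)]
    symm
    show cv s k (j + 1) = 0
    rw [cv_eq_zero]; omega

theorem cv_pop (s : Store) (k : ℕ) (j : ℕ) :
    cv (update s k (s k).tail) k (j + 1) =
      if cv s k (j + 1) ≠ 0 ∧ cv s k (j + 2) = 0 then 0 else cv s k (j + 1) := by
  have h1 : cv (update s k (s k).tail) k (j + 1) = bc ((s k).tail.reverse[j]?) := by
    simp [cv]
  rw [h1]
  simp only [ne_eq, cv_eq_zero]
  have h5 : (s k).tail.reverse = (s k).reverse.dropLast := by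
    cases s k with
    | nil => rfl
    | cons a l => simp
  rw [h5, List.getElem?_dropLast]
  simp only [List.length_reverse]
  split_ifs with h2 h3 h4
  · omega
  · rfl
  · rfl
  · symm
    show cv s k (j + 1) = 0
    rw [cv_eq_zero]; omega

theorem cv_ne {s : Store} {k k' : ℕ} (h : k' ≠ k) (y : List Bool) (j : ℕ) :
    cv (update s k y) k' j = cv s k' j := by
  cases j with
  | zero => rfl
  | succ j => simp [cv, update_of_ne h]

theorem cell_step (p : List Instr) (c : ℕ × Store) (k j : ℕ) :
    cv (stepM p c).2 k (j + 1) = nc p[c.1]? k (cv c.2 k j) (cv c.2 k (j + 1))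
      (cv c.2 k (j + 2)) := by
  obtain ⟨c, s⟩ := c
  unfold stepM
  simp only
  cases p[c]? with
  | none => rfl
  | some i =>
    simp only [nc]
    by_cases h0 : i.1 = 0
    · simp only [if_pos h0]
      by_cases hk : i.2.1 = k
      · subst hk
        rw [cv_push]
        simp [bc]
      · rw [cv_ne (Ne.symm hk)]
        simp [hk]
    · simp only [if_neg h0]
      by_cases h1 : i.1 = 1
      · simp only [if_pos h1]
        by_cases hk : i.2.1 = k
        · subst hk
          rw [cv_push]
          simp [bc]
        · rw [cv_ne (Ne.symm hk)]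
          simp [hk]
      · simp only [if_neg h1]
        by_cases h2 : i.1 = 2
        · simp only [if_pos h2]
          by_cases hk : i.2.1 = k
          · subst hk
            rw [cv_pop]
            simp
          · rw [cv_ne (Ne.symm hk)]
            simp [hk]
        · simp only [if_neg h2]
          split_ifs <;> rfl

theorem top_cell (s : Store) (k : ℕ) : cv s k (s k).length =
    match s k with
    | [] => 3
    | false :: _ => 1
    | true :: _ => 2 := by
  cases h : s k with
  | nil => rfl
  | cons a l =>
    have : cv s k (l.length + 1) = bc (some a) := by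
      simp [cv, h]
    simp only [List.length_cons, this]
    cases a <;> rfl

theorem pc_step {p : List Instr} {κ : ℕ} (hp : WF p κ) (c : ℕ × Store) {i : Instr}
    (hi : p[c.1]? = some i) {j : ℕ} (h1 : cv c.2 i.2.1 j ≠ 0) (h2 : cv c.2 i.2.1 (j + 1) = 0) :
    (stepM p c).1 = np i (cv c.2 i.2.1 j) := by
  obtain ⟨c, s⟩ := c
  simp only at *
  rw [Ne, cv_eq_zero] at h1
  rw [cv_eq_zero] at h2
  have hj : j = (s i.2.1).length := by omega
  subst hj
  rw [top_cell]
  have hw := (hp i (List.mem_of_getElem? hi)).1
  unfold stepM np
  simp only [hi]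
  by_cases h3 : i.1 = 3
  · simp only [h3, if_true]
    norm_num
    rcases s i.2.1 with _ | ⟨_ | _, l⟩ <;> simp
  · simp only [if_neg h3]
    split_ifs with h4 h5 h6
    · rfl
    · rfl
    · rfl
    · omega

theorem top_cell_ne (s : Store) (k : ℕ) : cv s k (s k).length ≠ 0 := by
  rw [Ne, cv_eq_zero]; omega

theorem above_top (s : Store) (k : ℕ) : cv s k ((s k).length + 1) = 0 := by
  rw [cv_eq_zero]; omega

theorem pc_le {p : List Instr} {κ : ℕ} (hp : WF p κ) {c : ℕ × Store} (h : c.1 ≤ p.length) :
    (stepM p c).1 ≤ p.length := by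
  obtain ⟨c, s⟩ := c
  unfold stepM
  simp only
  cases hi : p[c]? with
  | none => exact h
  | some i =>
    obtain ⟨h1, h2, h3, h4, h5⟩ := hp i (List.mem_of_getElem? hi)
    simp only
    split_ifs
    · exact h3
    · exact h3
    · exact h3
    · rcases s i.2.1 with _ | ⟨_ | _, l⟩ <;> simp [h3, h4, h5]
    · exact h

theorem len_step (p : List Instr) (c : ℕ × Store) (k : ℕ) :
    ((stepM p c).2 k).length ≤ (c.2 k).length + 1 := by
  obtain ⟨c, s⟩ := c
  unfold stepM
  simp only
  cases hi : p[c]? with
  | none => simp
  | some i =>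
    simp only
    by_cases hk : k = i.2.1
    · subst hk
      split_ifs <;> simp
      omega
    · split_ifs <;> simp [update_of_ne hk]

theorem iter_pc_le {p : List Instr} {κ : ℕ} (hp : WF p κ) (s : Store) (t : ℕ) :
    ((stepM p)^[t] (0, s)).1 ≤ p.length := by
  induction t with
  | zero => exact Nat.zero_le _
  | succ t ih => rw [iterate_succ_apply']; exact pc_le hp ih

theorem iter_len (p : List Instr) (c : ℕ × Store) (k t : ℕ) :
    (((stepM p)^[t] c).2 k).length ≤ (c.2 k).length + t := by
  induction t with
  | zero => exact le_rfl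
  | succ t ih =>
    rw [iterate_succ_apply']
    have := len_step p ((stepM p)^[t] c) k
    omega

end CookLevin
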