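import Pool.Agent.Lib.CookLevin.Correct

/-!
The Cook-Levin theorem: every problem in `N68a2faeb.NP` reduces in polynomial time to the
satisfiability of formulas in conjunctive normal form.
-/

namespace CookLevin

open HerCo Function N68a2faeb

variable {α : Type} [Enc α] {md : Mode}

@[fun_prop]
theorem FP.natPair {f g : α → ℕ} (hf : FP md f) (hg : FP md g) :
    FP md (fun a => Nat.pair (f a) (g a)) := by
  unfold Nat.pair
  fun_prop

@[fun_prop]
theorem FP.bc {o : α → Option Bool} (ho : FP md o) : FP md (fun a => bc (o a)) := by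
  refine (FP.optElim (f := fun _ => 0) (g := fun p : α × Bool => if p.2 then 2 else 1) ho
    (by fun_prop) (FP.ite (by fun_prop) (by fun_prop) (by fun_prop))).congr fun a => ?_
  rcases o a with _ | _ | _ <;> rfl

@[fun_prop]
theorem FP.vP {t c : α → ℕ} (ht : FP md t) (hc : FP md c) : FP md (fun a => vP (t a) (c a)) := by
  unfold CookLevin.vP
  fun_prop

@[fun_prop]
theorem FP.vC {t k j b : α → ℕ} (ht : FP md t) (hk : FP md k) (hj : FP md j) (hb : FP md b) :
    FP md (fun a => vC (t a) (k a) (j a) (b a)) := by
  unfold CookLevin.vC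
  fun_prop

@[fun_prop]
theorem FP.vL {l : α → ℕ} (hl : FP md l) : FP md (fun a => vL (l a)) := by
  unfold CookLevin.vL
  fun_prop

theorem FP.stepClauses (p : List Instr) (κ : ℕ) {T J : α → ℕ} (hT : FP md T) (hJ : FP md J) :
    FP md (fun a => stepClauses p κ (T a) (J a)) := by
  unfold CookLevin.stepClauses
  fun_prop

theorem FP.initClauses (κ : ℕ) {J Q : α → ℕ} {X : α → List Bool} (hJ : FP md J) (hQ : FP md Q)
    (hX : FP md X) : FP md (fun a => initClauses κ (J a) (Q a) (X a)) := by
  unfold CookLevin.initClauses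
  fun_prop

theorem FP.formula (p : List Instr) (κ : ℕ) {T J Q : α → ℕ} {X : α → List Bool} (hT : FP md T)
    (hJ : FP md J) (hQ : FP md Q) (hX : FP md X) :
    FP md (fun a => formula p κ (T a) (J a) (Q a) (X a)) := by
  unfold CookLevin.formula
  have h1 := FP.stepClauses p κ hT hJ
  have h2 := FP.initClauses κ hJ hQ hX
  fun_prop

/-- **Cook–Levin**: every problem in NP reduces in polynomial time to the satisfiability of
formulas in conjunctive normal form (with at least one clause and without empty clauses). -/
theorem cook_levin {L : DecisionProblem} (hL : L ∈ NP) :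
    ∃ f : List Bool → Cnf, FP .poly f ∧ (∀ x, f x ≠ []) ∧ (∀ x, ∀ cl ∈ f x, cl ≠ []) ∧
      ∀ x, L x = true ↔ Sat (f x) := by
  obtain ⟨q, R, hR, hLR⟩ := hL
  obtain ⟨p, κ, T₀, hκ, hp, ⟨k, hT₀⟩, hrun⟩ := Cp.machine ((isPolyTime_pair R).1 hR)
  let Q : List Bool → ℕ := fun x => q.eval x.length
  let X : List Bool → List Bool := fun x => dl (enc x)
  let T : List Bool → ℕ := fun x => ((X x).length + 3 * Q x + 2) ^ k
  let J : List Bool → ℕ := fun x => (X x).length + 3 * Q x + 2 * T x + 1
  have hX : FP .poly X := by
    have h : FP .poly (fun x : List Bool => (enc x : List Bool)) := by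
      have h1 : (fun x : List Bool => (enc x : List Bool)) =
          fun x => x.flatMap fun b => [true, b, false] := funext enc_bools
      rw [h1]
      fun_prop
    exact HerCo.FP.dl h
  have hQ : FP .poly Q := by
    show FP .poly (fun x : List Bool => q.eval x.length)
    fun_prop
  have hT : FP .poly T := by
    show FP .poly (fun x => ((X x).length + 3 * Q x + 2) ^ k)
    fun_prop
  have hJ : FP .poly J := by
    show FP .poly (fun x => (X x).length + 3 * Q x + 2 * T x + 1)
    fun_prop
  refine ⟨fun x => formula p κ (T x) (J x) (Q x) (X x), FP.formula p κ hT hJ hQ hX,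
    fun x => formula_ne_nil _ _ _ _ _ _, fun x => formula_ne _ _ _ _ _ _, fun x => ?_⟩
  rw [formula_sat hκ hp (fun w => R (x, w)) ?_ le_rfl]
  · exact hLR x
  · intro w hw
    obtain ⟨t, ht, hr⟩ := hrun (x, w)
    have h1 : (enc (x, w) : List Bool) = X x ++ enc w := rfl
    have h2 : (enc w : List Bool).length = 3 * w.length := by
      rw [enc_bools]
      clear hr h1 ht hw
      induction w with
      | nil => rfl
      | cons b w ih => simp [ih]; ring
    have h3 : t ≤ T x := by
      refine (ht.trans (hT₀ (x, w))).trans (Nat.pow_le_pow_left ?_ k)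
      rw [h1, List.length_append, h2]
      show _ ≤ (X x).length + 3 * Q x + 2
      have : w.length ≤ Q x := hw
      omega
    obtain ⟨r, hr'⟩ := Nat.exists_eq_add_of_le h3
    rw [hr', Nat.add_comm, iterate_add_apply, ← h1, hr, stepM_halt_iter]
    rfl

end CookLevin
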